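import Mathlib

/-!
# The six identities and their consequences of degrees 3, 4 and 5
-/

set_option autoImplicit false

namespace Pool.Agent.R639.PM

section Defs

variable {A : Type*} [NonUnitalNonAssocRing A]

/-- the commutator -/
def com (a b : A) : A := a * b - b * a

/-- the symmetric product `x • y` -/
def dot (a b : A) : A := a * b + b * a

/-- the associator `⟨a, b, c⟩` -/
def as (a b c : A) : A := (a * b) * c - a * (b * c)

/-- `f(x₁, x₂, x₃)` -/
def pf (x y z : A) : A :=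
  (x * y) * z + (y * z) * x + (z * x) * y - (y * x) * z - (z * y) * x - (x * z) * y

/-- `WA(a, b, c)` -/
def pWA (a b c : A) : A := as a b c + as b c a - as b a c

/-- a summand of `H̄` -/
def hs (x y z w : A) : A := (x * y) * (z * w) - x * ((y * z) * w)

/-- `H̄(x₁, x₂, x₃, x₄)` -/
def pH (x y z w : A) : A := hs x y z w + hs y z x w + hs z x y w + hs y x z w + hs z y x w + hs x z y w

/-- `Ī(x₁, x₂, x₃, x₄)` -/
def pI (x y z w : A) : A := as y (dot x w) z - dot (as y w z) x - dot (as y x z) w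

/-- `g₁` -/
def pg1 (a b c d : A) : A :=
  ((a * b) * c) * d + ((c * d) * a) * b - ((a * d) * c) * b - ((c * b) * a) * d

/-- `g₂` -/
def pg2 (a b c d : A) : A :=
  (a * b) * (d * c) + (c * (b * a)) * d + ((b * a) * c) * d - ((a * b) * d) * c
    - ((b * c) * a) * d - ((c * a) * b) * d

end Defs

/-- `A` satisfies the six identities -/
structure Sat (A : Type*) [NonUnitalNonAssocRing A] : Prop where
  f : ∀ x y z : A, pf x y z = 0
  wa : ∀ x y z : A, pWA x y z = 0
  h : ∀ x y z w : A, pH x y z w = 0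
  i : ∀ x y z w : A, pI x y z w = 0
  g1 : ∀ x y z w : A, pg1 x y z w = 0
  g2 : ∀ x y z w : A, pg2 x y z w = 0

/-- `A` satisfies the six identities and has no additive torsion -/
structure SatT (A : Type*) [NonUnitalNonAssocRing A] : Prop extends Sat A where
  tf : ∀ (n : ℕ) (x : A), n ≠ 0 → n • x = 0 → x = 0

section Ident

variable {A : Type*} [NonUnitalNonAssocRing A] (S : SatT A)
include S

theorem flex (a b c : A) : as a b c + as c b a = 0 := by
  have h1 := S.wa c a b
  have h2 := S.wa a c b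
  simp only [pWA] at h1 h2
  linear_combination (norm := abel) h1 + h2

theorem cyc (a b c : A) : as a b c + as b c a + as c a b = 0 := by
  have h1 := S.wa a b c
  have h2 := flex S b a c
  simp only [pWA] at h1 h2
  linear_combination (norm := abel) h1 + h2

theorem fL (a b c : A) : com a b * c + com b c * a + com c a * b = 0 := by
  have h := S.f a b c
  simp only [pf, com, sub_mul] at h ⊢
  linear_combination (norm := abel) h

theorem der (c d w : A) : com (c * d) w - c * com d w - com c w * d = 0 := by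
  have h1 := cyc S c d w
  have h2 := flex S c w d
  simp only [com, as, sub_mul, mul_sub] at h1 h2 ⊢
  linear_combination (norm := abel) h1 - h2

theorem fR (a b c : A) : a * com b c + b * com c a + c * com a b = 0 := by
  have h := S.f a b c
  have h1 := cyc S a b c
  have h2 := cyc S b a c
  simp only [pf, com, as, sub_mul, mul_sub] at h h1 h2 ⊢
  linear_combination (norm := abel) h - h1 + h2

theorem C_Lab (a b c d : A) :
    (a * b) * com c d - (a * (b * com c d) + (a * com c d) * b) = 0 := by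
  have h1 := flex S a b (c * d)
  have h2 := S.g2 c d a b
  have h3 := congrArg (· * b) (fL S a c d)
  have h4 := flex S a b (d * c)
  have h5 := S.g2 d c a b
  simp only [pg2, com, as, sub_mul, mul_sub, add_mul, mul_add, zero_mul] at h1 h2 h3 h4 h5 ⊢
  linear_combination (norm := abel) h1 + h2 + h3 - h4 - h5

theorem C_Rab (a b c d : A) :
    com c d * (a * b) - (a * (com c d * b) + (com c d * a) * b) = 0 := by
  have e0 := cyc S (c * d) a b
  have e1 := C_Lab S a b c d
  have e2 := cyc S (d * c) a b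
  have e3 := flex S a (d * c) b
  have e4 := flex S a (c * d) b
  simp only [com, as, sub_mul, mul_sub, add_mul, mul_add, zero_mul, mul_zero] at e0 e1 e2 e3 e4 ⊢
  linear_combination (norm := abel) (-1 : ℤ) • e0 + (1 : ℤ) • e1 + (1 : ℤ) • e2 + (-1 : ℤ) • e3 + (1 : ℤ) • e4

theorem C_LL (a b c d : A) :
    a * (b * com c d) - b * (a * com c d) = 0 := by
  have e0 := congrArg ((b) * ·) (cyc S a d c)
  have e1 := congrArg ((b) * ·) (cyc S a c d)
  have e2 := congrArg ((b) * ·) (fL S a c d)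
  have e3 := congrArg ((a) * ·) (cyc S b d c)
  have e4 := congrArg ((a) * ·) (fL S b c d)
  have e5 := congrArg ((a) * ·) (cyc S b c d)
  have e6 := fL S (c * b) a d
  have e7 := fL S (d * c) a b
  have e8 := C_Rab S d c a b
  have e9 := cyc S b (d * a) c
  have e10 := C_Lab S a d b c
  have e11 := cyc S b (c * a) d
  have e12 := S.i b a d c
  have e13 := S.i b a c d
  have e14 := C_Rab S c d a b
  have e15 := cyc S a (c * b) d
  have e16 := congrArg (· * (d)) (fL S a b c)
  have e17 := fL S (c * a) b d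
  have e18 := C_Lab S b d a c
  have e19 := S.i a b c d
  have e20 := S.i a b d c
  have e21 := congrArg (· * (b)) (fL S a c d)
  have e22 := fL S (c * d) a b
  have e23 := congrArg (· * (a)) (fL S b c d)
  have e24 := C_Lab S c b a d
  have e25 := S.g2 c b a d
  have e26 := S.g2 a d c b
  have e27 := fL S (a * d) b c
  have e28 := S.g2 d a b c
  have e29 := fL S (b * d) a c
  have e30 := S.g2 b c d a
  have e31 := S.g1 a c b d
  have e32 := C_Lab S c a b d
  have e33 := S.g2 b d c a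
  have e34 := C_Lab S b a c d
  have e35 := C_Lab S a b c d
  have e36 := S.g2 c a b d
  have e37 := S.g1 c a d b
  have e38 := S.g2 a c d b
  have e39 := S.g2 d b a c
  have e40 := cyc S a (d * b) c
  have e41 := C_Lab S a c b d
  have e42 := C_Lab S b c a d
  have e43 := fL S (b * c) a d
  have e44 := C_Lab S d a b c
  have e45 := fL S (a * c) b d
  have e46 := C_Lab S d b a c
  have e47 := congrArg (· * (c)) (fL S a b d)
  have e48 := fL S (d * a) b c
  have e49 := fL S (d * b) a c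
  apply S.tf 12 _ (by norm_num)
  simp only [pI, dot, pg1, pg2, com, as, sub_mul, mul_sub, add_mul, mul_add, zero_mul, mul_zero] at e0 e1 e2 e3 e4 e5 e6 e7 e8 e9 e10 e11 e12 e13 e14 e15 e16 e17 e18 e19 e20 e21 e22 e23 e24 e25 e26 e27 e28 e29 e30 e31 e32 e33 e34 e35 e36 e37 e38 e39 e40 e41 e42 e43 e44 e45 e46 e47 e48 e49 ⊢
  linear_combination (norm := abel) (-1 : ℤ) • e0 + (1 : ℤ) • e1 + (-1 : ℤ) • e2 + (1 : ℤ) • e3 + (1 : ℤ) • e4 + (-1 : ℤ) • e5 + (1 : ℤ) • e6 + (-7 : ℤ) • e7 + (-2 : ℤ) • e8 + (2 : ℤ) • e9 + (1 : ℤ) • e10 + (-2 : ℤ) • e11 + (-2 : ℤ) • e12 + (2 : ℤ) • e13 + (2 : ℤ) • e14 + (2 : ℤ) • e15 + (1 : ℤ) • e16 + (-1 : ℤ) • e17 + (-1 : ℤ) • e18 + (-2 : ℤ) • e19 + (2 : ℤ) • e20 + (-4 : ℤ) • e21 + (7 : ℤ) • e22 + (4 : ℤ) • e23 + (2 : ℤ) • e24 + (3 : ℤ) • e25 + (-3 : ℤ) • e26 + (2 : ℤ) • e27 + (3 : ℤ) • e28 + (-2 : ℤ) • e29 + (-3 : ℤ) • e30 + (12 : ℤ) • e31 + (-2 : ℤ) • e32 + (3 : ℤ) • e33 + (9 : ℤ) • e34 + (-9 : ℤ) • e35 + (-3 : ℤ) • e36 + (-12 : ℤ)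 • e37 + (3 : ℤ) • e38 + (-3 : ℤ) • e39 + (-2 : ℤ) • e40 + (-1 : ℤ) • e41 + (1 : ℤ) • e42 + (2 : ℤ) • e43 + (2 : ℤ) • e44 + (-2 : ℤ) • e45 + (-2 : ℤ) • e46 + (-1 : ℤ) • e47 + (1 : ℤ) • e48 + (-1 : ℤ) • e49

theorem C_RR (a b c d : A) :
    (com c d * a) * b - (com c d * b) * a = 0 := by
  have e0 := fL S (c * d) a b
  have e1 := C_Lab S b a c d
  have e2 := fL S (d * c) a b
  have e3 := C_Lab S a b c d
  have e4 := C_LL S a b c d
  simp only [com, as, sub_mul, mul_sub, add_mul, mul_add, zero_mul, mul_zero] at e0 e1 e2 e3 e4 ⊢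
  linear_combination (norm := abel) (1 : ℤ) • e0 + (1 : ℤ) • e1 + (-1 : ℤ) • e2 + (-1 : ℤ) • e3 + (-1 : ℤ) • e4

theorem C_mid (a b c d : A) :
    a * (com c d * b) - (a * com c d) * b = 0 := by
  have e0 := fL S (a * b) c d
  have e1 := C_Rab S a b c d
  have e2 := C_RR S c d a b
  have e3 := congrArg (· * (c)) (flex S b a d)
  have e4 := congrArg (· * (d)) (flex S b a c)
  have e5 := congrArg (· * (b)) (flex S a c d)
  have e6 := congrArg (· * (b)) (cyc S a d c)
  have e7 := congrArg (· * (b)) (fL S a c d)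
  have e8 := congrArg (· * (c)) (fL S a b d)
  have e9 := fL S (a * d) b c
  have e10 := C_Rab S a d b c
  have e11 := congrArg (· * (b)) (flex S a d c)
  have e12 := congrArg ((a) * ·) (fL S b c d)
  have e13 := congrArg (· * (d)) (fL S a b c)
  have e14 := fL S (a * c) b d
  have e15 := congrArg (· * (b)) (cyc S a c d)
  have e16 := C_Rab S a c b d
  apply S.tf 2 _ (by norm_num)
  simp only [com, as, sub_mul, mul_sub, add_mul, mul_add, zero_mul, mul_zero] at e0 e1 e2 e3 e4 e5 e6 e7 e8 e9 e10 e11 e12 e13 e14 e15 e16 ⊢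
  linear_combination (norm := abel) (1 : ℤ) • e0 + (-1 : ℤ) • e1 + (-2 : ℤ) • e2 + (1 : ℤ) • e3 + (-1 : ℤ) • e4 + (1 : ℤ) • e5 + (-1 : ℤ) • e6 + (-1 : ℤ) • e7 + (-1 : ℤ) • e8 + (-1 : ℤ) • e9 + (1 : ℤ) • e10 + (-1 : ℤ) • e11 + (1 : ℤ) • e12 + (1 : ℤ) • e13 + (1 : ℤ) • e14 + (1 : ℤ) • e15 + (-1 : ℤ) • e16

theorem D4c (a b c d : A) :
    as c (com a b) d = 0 := by
  have e0 := C_mid S c d a b
  simp only [com, as, sub_mul, mul_sub, add_mul, mul_add, zero_mul, mul_zero] at e0 ⊢
  linear_combination (norm := abel) (-1 : ℤ) • e0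

theorem C_LR (a b c d : A) :
    a * (com c d * b) - b * (com c d * a) = 0 := by
  have e0 := C_mid S b a c d
  have e1 := flex S (c * d) a b
  have e2 := C_Lab S b a c d
  have e3 := C_Rab S a b c d
  have e4 := flex S (d * c) a b
  simp only [com, as, sub_mul, mul_sub, add_mul, mul_add, zero_mul, mul_zero] at e0 e1 e2 e3 e4 ⊢
  linear_combination (norm := abel) (-1 : ℤ) • e0 + (-1 : ℤ) • e1 + (1 : ℤ) • e2 + (-1 : ℤ) • e3 + (1 : ℤ) • e4


end Ident

end Pool.Agent.R639.PM
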