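import Pool.Agent.R639.PM.Ident

/-!
# Identities for associators
-/

set_option autoImplicit false

namespace Pool.Agent.R639.PM

section Basic

variable {A : Type*} [NonUnitalNonAssocRing A] (S : SatT A)
include S

/-- left multiples of commutators are sums of commutators -/
theorem three_left (c d w : A) : (3 : ℕ) • (c * com d w) =
    com (c * d) w + com (w * d) c - com (d * w) c - com (c * w) d := by
  have h1 := der S c d w
  have h2 := der S w d c
  have h3 := der S d w c
  have h4 := der S c w d
  have h6 := fR S c d w
  simp only [com, sub_mul, mul_sub] at h1 h2 h3 h4 h6 ⊢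
  linear_combination (norm := abel) (-1 : ℤ) • h1 - h2 + h3 + h4 + h6

theorem three_right (c d w : A) : (3 : ℕ) • (com d w * c) =
    com (d * c) w + com (d * w) c - com (w * c) d - com (w * d) c := by
  have h1 := der S d c w
  have h2 := der S d w c
  have h3 := der S w c d
  have h4 := der S w d c
  have h5 := fL S c d w
  simp only [com, sub_mul, mul_sub] at h1 h2 h3 h4 h5 ⊢
  linear_combination (norm := abel) (-1 : ℤ) • h1 - h2 + h3 + h4 + h5

theorem X3 (a b c : A) :
    (a * b) * c - (c * b) * a - (b * com a c + com a c * b + as a b c) = 0 := by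
  have h1 := fR S a b c
  have h2 := der S c b a
  simp only [com, as, sub_mul, mul_sub] at h1 h2 ⊢
  linear_combination (norm := abel) h1 - h2

/-- `g₁` in terms of associators -/
theorem D2R (a b c d : A) : as c b d * a - as c a d * b = 0 := by
  have e1 := S.g1 c b d a
  have e2 := congrArg (· * a) (X3 S c b d)
  have e3 := congrArg (· * b) (X3 S c a d)
  have e4 := C_LR S a b c d
  have e5 := C_mid S b a c d
  have e6 := C_mid S a b c d
  have e7 := C_RR S b a c d
  simp only [pg1, com, as, sub_mul, mul_sub, add_mul, zero_mul] at e1 e2 e3 e4 e5 e6 e7 ⊢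
  linear_combination (norm := abel) e1 - e2 + e3 + e4 + e5 - e6 - e7

theorem kas (x y b d : A) : as (com x y) b d + b * (com x y * d) = 0 := by
  have e1 := C_Rab S b d x y
  simp only [as]
  linear_combination (norm := abel) (-1 : ℤ) • e1

theorem D3 (a b c d : A) : com a (as c b d) + a * (com d c * b) = 0 := by
  have e1 := der S (c * b) d a
  have e2 := congrArg (· * d) (der S c b a)
  have e3 := der S c (b * d) a
  have e4 := congrArg (c * ·) (der S b d a)
  have e5 := D4c S b a c d
  have e6 := kas S c a b d
  have e7 := flex S c b (com d a)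
  have e8 := kas S d a b c
  have e9 := congrArg (b * ·) (fL S a c d)
  have e10 := C_LR S a b d c
  simp only [com, as, sub_mul, mul_sub, add_mul, mul_add, zero_mul, mul_zero]
    at e1 e2 e3 e4 e5 e6 e7 e8 e9 e10 ⊢
  linear_combination (norm := abel) (-1 : ℤ) • e1 - e2 + e3 + e4 - e7 + e8 - e5 - e6 - e9 + e10

theorem D2L (a b c d : A) : a * as c b d - b * as c a d = 0 := by
  have e1 := D3 S a b c d
  have e2 := D3 S b a c d
  have e3 := C_LR S a b d c
  have e4 := D2R S a b c d
  have h1 : com a (as c b d) = a * as c b d - as c b d * a := rfl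
  have h2 : com b (as c a d) = b * as c a d - as c a d * b := rfl
  rw [h1] at e1
  rw [h2] at e2
  linear_combination (norm := abel) e1 - e2 - e3 + e4

theorem D4a (a b c d : A) : as c (a * b) d - (a * as c b d + as c b d * a) = 0 := by
  have e1 := S.i a c d b
  have e2 := D4c S a b c d
  have e3 := D2L S a b c d
  have e4 := D2R S a b c d
  apply S.tf 2 _ (by norm_num)
  simp only [pI, dot, com, as, sub_mul, mul_sub, add_mul, mul_add] at e1 e2 e3 e4 ⊢
  linear_combination (norm := abel) e1 + e2 - e3 - e4

theorem D4b (a b c d : A) : as (a * b) c d - (a * as b c d + as a c d * b) = 0 := by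
  have e1 := S.g2 a b d c
  have e2 := congrArg (· * c) (fR S a b d)
  have e3 := congrArg (· * c) (cyc S a b d)
  have e4 := D2R S c b a d
  have e5 := D2R S c a b d
  have e6 := D3 S a c b d
  have e7 := C_mid S a c b d
  simp only [pg2, com, as, sub_mul, mul_sub, add_mul, mul_add, zero_mul]
    at e1 e2 e3 e4 e5 e6 e7 ⊢
  linear_combination (norm := abel) (-1 : ℤ) • e1 - e2 - e3 + e4 + e5 - e6 - e7

end Basic

/-! ### Good elements -/

section Good

variable {A : Type*} [NonUnitalNonAssocRing A]

/-- left and right multiplications act on `u` like commuting operators `P` and `-Q` -/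
structure Good (u : A) : Prop where
  LL : ∀ a b : A, a * (b * u) = b * (a * u)
  RR : ∀ a b : A, (u * a) * b = (u * b) * a
  mid : ∀ a b : A, (a * u) * b = a * (u * b)
  LR : ∀ a b : A, a * (u * b) = b * (u * a)
  Lab : ∀ a b : A, (a * b) * u = a * (b * u) + (a * u) * b
  Rab : ∀ a b : A, u * (a * b) = a * (u * b) + (u * a) * b

theorem Good.zero : Good (0 : A) := by
  constructor <;> intro a b <;> simp

theorem Good.add {u v : A} (hu : Good u) (hv : Good v) : Good (u + v) := by
  constructor <;> intro a b <;> simp only [mul_add, add_mul]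
  · rw [hu.LL, hv.LL]
  · rw [hu.RR, hv.RR]
  · rw [hu.mid, hv.mid]
  · rw [hu.LR, hv.LR]
  · rw [hu.Lab, hv.Lab]; abel
  · rw [hu.Rab, hv.Rab]; abel

theorem Good.neg {u : A} (hu : Good u) : Good (-u) := by
  constructor <;> intro a b <;> simp only [mul_neg, neg_mul]
  · rw [hu.LL]
  · rw [hu.RR]
  · rw [hu.mid]
  · rw [hu.LR]
  · rw [hu.Lab]; abel
  · rw [hu.Rab]; abel

variable (S : SatT A)
include S

theorem good_of_smul (n : ℕ) (hn : n ≠ 0) {u : A} (hu : Good (n • u)) : Good u := by
  have tf' : ∀ x y : A, n • x = n • y → x = y := by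
    intro x y h
    rw [← sub_eq_zero]
    apply S.tf n _ hn
    rw [smul_sub, h, sub_self]
  constructor
  · intro a b
    have := hu.LL a b
    simp only [mul_smul_comm, smul_mul_assoc] at this
    exact tf' _ _ this
  · intro a b
    have := hu.RR a b
    simp only [mul_smul_comm, smul_mul_assoc] at this
    exact tf' _ _ this
  · intro a b
    have := hu.mid a b
    simp only [mul_smul_comm, smul_mul_assoc] at this
    exact tf' _ _ this
  · intro a b
    have := hu.LR a b
    simp only [mul_smul_comm, smul_mul_assoc] at this
    exact tf' _ _ this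
  · intro a b
    have := hu.Lab a b
    simp only [mul_smul_comm, smul_mul_assoc, ← smul_add] at this
    exact tf' _ _ this
  · intro a b
    have := hu.Rab a b
    simp only [mul_smul_comm, smul_mul_assoc, ← smul_add] at this
    exact tf' _ _ this

theorem good_com (x y : A) : Good (com x y) := by
  constructor <;> intro a b
  · exact sub_eq_zero.1 (C_LL S a b x y)
  · exact sub_eq_zero.1 (C_RR S a b x y)
  · exact (sub_eq_zero.1 (C_mid S a b x y)).symm
  · exact sub_eq_zero.1 (C_LR S a b x y)
  · exact sub_eq_zero.1 (C_Lab S a b x y)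
  · exact sub_eq_zero.1 (C_Rab S a b x y)

theorem good_sub {u v : A} (hu : Good u) (hv : Good v) : Good (u - v) := by
  rw [sub_eq_add_neg]; exact hu.add hv.neg

theorem good_left (c x y : A) : Good (c * com x y) := by
  apply good_of_smul S 3 (by norm_num)
  rw [three_left S]
  exact good_sub S (good_sub S ((good_com S _ _).add (good_com S _ _)) (good_com S _ _))
    (good_com S _ _)

theorem good_right (c x y : A) : Good (com x y * c) := by
  apply good_of_smul S 3 (by norm_num)
  rw [three_right S]
  exact good_sub S (good_sub S ((good_com S _ _).add (good_com S _ _)) (good_com S _ _))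
    (good_com S _ _)

end Good

end Pool.Agent.R639.PM
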