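import Pool.Agent.R639.PM.Ident2

/-!
# Degree five: associators are good
-/

set_option autoImplicit false

namespace Pool.Agent.R639.PM

variable {A : Type*} [NonUnitalNonAssocRing A] (S : SatT A)

theorem as_sub_mid (x u v z : A) : as x (u - v) z = as x u z - as x v z := by
  simp only [as, mul_sub, sub_mul]; abel

theorem as_add_mid (x u v z : A) : as x (u + v) z = as x u z + as x v z := by
  simp only [as, mul_add, add_mul]; abel

theorem com_def (a b : A) : com a b = a * b - b * a := rfl

include S

theorem comR (x b z a : A) : as x b z * a = a * as x b z + a * (com z x * b) := by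
  have h := D3 S a b x z
  rw [com_def a] at h
  linear_combination (norm := abel) (-1 : ℤ) • h

theorem comL (x b z a c : A) :
    (a * as x b z) * c = c * (a * as x b z) + a * (c * (com z x * b)) := by
  have h1 := der S a (as x b z) c
  have h2 : com a c * as x b z = 0 := by
    have h3 := D2L S (com a c) b x z
    rw [D4c S a c x z, mul_zero, sub_zero] at h3
    exact h3
  have h4 : com (as x b z) c = c * (com z x * b) := by
    rw [com_def, comR S]; abel
  rw [h2, h4, com_def, sub_zero] at h1
  linear_combination (norm := abel) h1

theorem star (x b z a c : A) :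
    (4 : ℕ) • (c * (a * as x b z) - a * (c * as x b z)) = as x (as a b c) z := by
  have key : ∀ a b : A, (2 : ℕ) • (a * as x b z) = as x (a * b) z - a * (com z x * b) := by
    intro a b
    have h1 := D4a S a b x z
    have h2 := comR S x b z a
    linear_combination (norm := abel) (-1 : ℤ) • h1 - h2
  have hw : Good (com z x * b) := good_right S _ _ _
  have e : ∀ a c : A, (4 : ℕ) • (c * (a * as x b z)) =
      as x (c * (a * b)) z - (3 : ℕ) • (c * (a * (com z x * b))) - c * ((com z x * b) * a) := by
    intro a c
    have k1 := congrArg (fun u => c * u) (key a b)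
    have k2 := key c (a * b)
    have k3 : com z x * (a * b) = a * (com z x * b) + (com z x * b) * a := by
      rw [(good_com S z x).Rab, (good_com S z x).RR a b]
    rw [k3] at k2
    simp only [mul_smul_comm, mul_sub, mul_add] at k1 k2
    linear_combination (norm := abel) (2 : ℕ) • k1 + k2
  have e1 := e a c
  have e2 := e c a
  have h1 : as x (c * (a * b)) z = as x ((a * b) * c) z := by
    have := D4c S c (a * b) x z
    rw [com_def, as_sub_mid] at this
    exact sub_eq_zero.1 this
  have h2 : as x (a * (c * b)) z = as x (a * (b * c)) z := by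
    have h3 := D4a S a (com c b) x z
    rw [D4c S c b x z, mul_zero, zero_mul, add_zero, sub_zero, com_def, mul_sub,
      as_sub_mid] at h3
    exact sub_eq_zero.1 h3
  have h3 : as x (as a b c) z = as x ((a * b) * c) z - as x (a * (b * c)) z := by
    rw [← as_sub_mid]; rfl
  rw [h3, smul_sub, e1, e2, h1, h2, hw.LL a c, hw.LR a c]
  abel

theorem r3 (x y z a b : A) : as y (as a b x) z + as x (as a b y) z = 0 := by
  have d1 := D4b S x y (a * b) z
  have d2 := D4a S a b (x * y) z
  have d3 := D4b S x y b z
  have d4 := D4a S a b y z
  have d5 := D4a S a b x z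
  have q1 : as (x * y) b z = x * as y b z + as x b z * y := sub_eq_zero.1 d3
  have q2 : as y (a * b) z = a * as y b z + as y b z * a := sub_eq_zero.1 d4
  have q3 : as x (a * b) z = a * as x b z + as x b z * a := sub_eq_zero.1 d5
  rw [q1] at d2
  rw [q2, q3] at d1
  have hw : Good (com z x * b) := good_right S _ _ _
  have main : x * (a * as y b z + as y b z * a) + (a * as x b z + as x b z * a) * y =
      a * (x * as y b z + as x b z * y) + (x * as y b z + as x b z * y) * a :=
    (sub_eq_zero.1 d1).symm.trans (sub_eq_zero.1 d2)
  rw [comR S y b z a, comR S x b z a, comR S x b z y] at main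
  simp only [mul_add, add_mul] at main
  rw [comL S x b z a y, comL S y b z x a, comL S x b z y a] at main
  have w1 : (a * (com z x * b)) * y = (y * (com z x * b)) * a := by
    rw [hw.mid, hw.mid, hw.LR]
  have w2 : y * (a * (com z x * b)) = a * (y * (com z x * b)) := hw.LL _ _
  rw [w1, w2] at main
  have s1 := star S y b z a x
  have s2 := star S x b z a y
  have h2 : (2 : ℕ) • ((x * (a * as y b z) - a * (x * as y b z)) +
      (y * (a * as x b z) - a * (y * as x b z))) = 0 := by
    linear_combination (norm := abel) main
  rw [← s1, ← s2, ← smul_add]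
  have : (4 : ℕ) = 2 * 2 := rfl
  rw [this, mul_smul, h2, smul_zero]

theorem phi0 (x a b c z : A) : as x (as a b c) z = 0 := by
  have r1 : ∀ x a b c z : A, as x (as a b c) z = - as z (as a b c) x := fun x a b c z =>
    eq_neg_of_add_eq_zero_left (flex S _ _ _)
  have r2 : ∀ x a b c z : A, as x (as a b c) z = - as x (as c b a) z := by
    intro x a b c z
    have h := flex S a b c
    apply eq_neg_of_add_eq_zero_left
    rw [← as_add_mid, h]
    simp [as]
  have r3' : ∀ x a b c z : A, as x (as a b c) z = - as c (as a b x) z := fun x a b c z =>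
    eq_neg_of_add_eq_zero_left (r3 S _ _ _ _ _)
  have r4 : ∀ x a b c z : A,
      as x (as a b c) z + as x (as b c a) z + as x (as c a b) z = 0 := by
    intro x a b c z
    have h := cyc S a b c
    rw [← as_add_mid, ← as_add_mid, h]
    simp [as]
  have sw45 : ∀ x a b c z : A, as x (as a b z) c = - as x (as a b c) z := by
    intro x a b c z
    rw [r3' x a b z c, r1 z a b x c, r3' c a b x z]
    simp
  have sw35 : ∀ x b c a z : A, as x (as b z a) c = - as x (as b c a) z := by
    intro x b c a z
    have hA := r4 x a b c z
    have hB := r4 x a b z c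
    have h1 := sw45 x a b c z
    have h2 : as x (as z a b) c = - as x (as c a b) z := by
      rw [r2 x z a b c, sw45 x b a c z, r2 x b a c z]
      simp
    rw [h1, h2] at hB
    linear_combination (norm := abel) hA + hB
  have sw34 : ∀ x a b c z : A, as x (as a c b) z = - as x (as a b c) z := by
    intro x a b c z
    rw [sw45 x a c z b, sw35 x a b z c, sw45 x a b c z]
    simp
  have sw23 : ∀ x a b c z : A, as x (as b a c) z = - as x (as a b c) z := by
    intro x a b c z
    rw [r2 x b a c z, sw34 x c b a z, r2 x c b a z]
    simp
  have h := r4 x a b c z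
  rw [sw34 x b a c z, sw23 x a b c z, sw23 x a c b z, sw34 x a b c z] at h
  apply S.tf 3 _ (by norm_num)
  linear_combination (norm := abel) h

theorem as_LL (x b z a c : A) : a * (c * as x b z) = c * (a * as x b z) := by
  have h := star S x b z c a
  rw [phi0 S] at h
  exact sub_eq_zero.1 (S.tf 4 _ (by norm_num) h)

theorem as_mid (x b z a c : A) : (a * as x b z) * c = a * (as x b z * c) := by
  rw [comL S, comR S, mul_add, as_LL S x b z a c]

theorem as_LR (x b z a c : A) : a * (as x b z * c) = c * (as x b z * a) := by
  have hw : Good (com z x * b) := good_right S _ _ _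
  rw [comR S, comR S, mul_add, mul_add, as_LL S x b z a c, hw.LL]

theorem as_RR (x b z a c : A) : (as x b z * a) * c = (as x b z * c) * a := by
  have hw : Good (com z x * b) := good_right S _ _ _
  rw [comR S, comR S, add_mul, add_mul, comL S, comL S, as_LL S x b z a c, hw.LL a c, hw.mid,
    hw.mid, hw.LR a c]

theorem good_as (x b z : A) : Good (as x b z) where
  LL := fun a c => as_LL S x b z a c
  RR := fun a c => as_RR S x b z a c
  mid := fun a c => as_mid S x b z a c
  LR := fun a c => as_LR S x b z a c
  Lab := fun a c => by
    have h1 := sub_eq_zero.1 (D2L S (a * c) b x z)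
    have h2 := sub_eq_zero.1 (D4a S a c x z)
    have h3 := sub_eq_zero.1 (D2L S c b x z)
    have h4 := sub_eq_zero.1 (D2R S c b x z)
    rw [h1, h2, h3, mul_add, as_mid S x b z a c, h4, as_LL S x c z a b, as_LR S x c z a b]
  Rab := fun a c => by
    have h1 := sub_eq_zero.1 (D2R S (a * c) b x z)
    have h2 := sub_eq_zero.1 (D4a S a c x z)
    have h4 := sub_eq_zero.1 (D2R S c b x z)
    rw [h1, h2, add_mul, as_RR S x b z a c, h4, as_mid S x c z a b, as_RR S x c z a b]

end Pool.Agent.R639.PM
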