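import Pool.Agent.R639.PM.Model

/-!
# Multilinear identities of the model hold in all algebras with the six identities
-/

set_option autoImplicit false

namespace Pool.Agent.R639.PM

open Polynomial

noncomputable section

section Hom

variable {A B : Type*} [NonUnitalNonAssocRing A] [NonUnitalNonAssocRing B]

theorem E_snd (l : List (A × B)) : ∀ (k : ℕ) (x y : A × B),
    (E l k x y).2 = E (l.map Prod.snd) k x.2 y.2 := by
  induction l with
  | nil => intro k x y; rfl
  | cons w l ih =>
    intro k x y
    rcases l with _ | ⟨z, l⟩
    · show (G k w x y).2 = G k w.2 x.2 y.2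
      unfold G
      split_ifs <;> rfl
    · show (E (w :: z :: l) k x y).2 = E (w.2 :: z.2 :: l.map Prod.snd) k x.2 y.2
      rw [E, E, List.length_map]
      split_ifs
      · show w.2 * (E (z :: l) k x y).2 = _
        rw [ih]; rfl
      · show -((E (z :: l) (k - 1) x y).2 * w.2) = _
        rw [ih]; rfl

end Hom

section

variable (F : Type*) [Field F] {A : Type*} [NonUnitalNonAssocRing A] [Module F A]
  [IsScalarTower F A A] [SMulCommClass F A A] (v : ℕ → A)

/-- generators of the product algebra -/
def vp (i : ℕ) : A × MM F := (v i, xg F i)

/-- second component, second part -/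
def ss (u : A × MM F) (i : ℕ) : F[X] := f2 F u.2 i

theorem ss_add (u w : A × MM F) (i : ℕ) : ss F (u + w) i = ss F u i + ss F w i := rfl
theorem ss_smul (c : F) (u : A × MM F) (i : ℕ) : ss F (c • u) i = c • ss F u i := rfl

theorem ss_E (l : List ℕ) (hl : l ≠ []) (k x y : ℕ) (hk : k ≤ l.length + 1) (i : ℕ) :
    ss F (E (l.map (vp F v)) k (vp F v x) (vp F v y)) i =
      X ^ (l.length + 1 - k) * ((if i = y then 1 else 0) - (if i = x then 1 else 0)) := by
  unfold ss
  rw [E_snd, List.map_map]
  have h := (E_model F (xg F x) (xg F y) rfl rfl (l.map (xg F)) (by simpa using hl)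
    (by intro z hz; obtain ⟨j, _, rfl⟩ := List.mem_map.1 hz; rfl) k (by simpa using hk)).2 i
  rw [List.length_map] at h
  exact h

theorem sf_E (l : List ℕ) (hl : l ≠ []) (k x y : ℕ) (hk : k ≤ l.length + 1) :
    f1 F (E (l.map (vp F v)) k (vp F v x) (vp F v y)).2 = 0 := by
  rw [E_snd, List.map_map]
  exact (E_model F (xg F x) (xg F y) rfl rfl (l.map (xg F)) (by simpa using hl)
    (by intro z hz; obtain ⟨j, _, rfl⟩ := List.mem_map.1 hz; rfl) k (by simpa using hk)).1

/-- reference elements -/
def eb (s : Finset ℕ) (x0 y k : ℕ) : A × MM F :=
  E ((((s.erase x0).erase y).toList).map (vp F v)) k (vp F v x0) (vp F v y)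

/-- recovers an element of the ideal from its second component -/
def rho (s : Finset ℕ) (x0 : ℕ) (f : ℕ → F[X]) : A × MM F :=
  ∑ y ∈ s.erase x0, ∑ k ∈ Finset.range s.card, ((f y).coeff (s.card - 1 - k)) • eb F v s x0 y k

theorem rho_add (s : Finset ℕ) (x0 : ℕ) (f g : ℕ → F[X]) :
    rho F v s x0 (fun i => f i + g i) = rho F v s x0 f + rho F v s x0 g := by
  unfold rho
  simp only [coeff_add, add_smul, Finset.sum_add_distrib]

theorem rho_smul (s : Finset ℕ) (x0 : ℕ) (c : F) (f : ℕ → F[X]) :
    rho F v s x0 (fun i => c • f i) = c • rho F v s x0 f := by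
  unfold rho
  simp only [coeff_smul, smul_eq_mul, mul_smul, Finset.smul_sum]

theorem rho_zero (s : Finset ℕ) (x0 : ℕ) : rho F v s x0 (fun _ => 0) = 0 := by
  unfold rho
  simp

theorem rho_single (s : Finset ℕ) (x0 : ℕ) (k : ℕ) (hk : k < s.card) (y : ℕ) (hy : y ∈ s) :
    rho F v s x0 (fun i => X ^ (s.card - 1 - k) * (if i = y then 1 else 0)) =
      if y = x0 then 0 else eb F v s x0 y k := by
  unfold rho
  by_cases h : y = x0
  · rw [if_pos h]
    apply Finset.sum_eq_zero
    intro y' hy'
    have : y' ≠ y := by rw [h]; exact Finset.ne_of_mem_erase hy'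
    simp [this]
  · rw [if_neg h, Finset.sum_eq_single y]
    · rw [Finset.sum_eq_single k]
      · simp
      · intro k' hk' hne
        have : s.card - 1 - k' ≠ s.card - 1 - k := by
          have := Finset.mem_range.1 hk'
          omega
        simp [coeff_X_pow, this]
      · intro h'
        exact absurd (Finset.mem_range.2 hk) h'
    · intro y' _ hne
      simp [hne]
    · intro h'
      exact absurd (Finset.mem_erase.2 ⟨h, hy⟩) h'

variable (S : SatT (A × MM F))
include S

theorem eb_eq (s : Finset ℕ) (x0 : ℕ) (l : List ℕ) (y k : ℕ)
    (hs : s.val = (l : Multiset ℕ) + {x0, y}) (hk : k ≤ l.length + 1) :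
    E (l.map (vp F v)) k (vp F v x0) (vp F v y) = eb F v s x0 y k := by
  have hp : l.Perm ((s.erase x0).erase y).toList := by
    rw [← Multiset.coe_eq_coe, Finset.coe_toList, Finset.erase_val, Finset.erase_val, hs]
    have : (l : Multiset ℕ) + {x0, y} = x0 ::ₘ y ::ₘ (l : Multiset ℕ) := by
      rw [add_comm]; rfl
    rw [this, Multiset.erase_cons_head, Multiset.erase_cons_head]
  unfold eb
  exact E_perm S _ _ (hp.map _) k (by simpa using hk)

theorem rho_N (s : Finset ℕ) (x0 : ℕ) (h0 : x0 ∈ s) (h3 : 3 ≤ s.card) (u : A × MM F)
    (hu : u ∈ N F (vp F v) s.val) : rho F v s x0 (ss F u) = u := by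
  induction hu using Submodule.span_induction with
  | mem u hu =>
    rcases hu with ⟨x, y, hs, rfl⟩ | ⟨l, k, x, y, hl, hk, hs, rfl⟩
    · exfalso
      have h1 : s.card = 2 := by
        show Multiset.card s.val = 2
        rw [hs]; rfl
      omega
    · have hcard : s.card = l.length + 2 := by
        show Multiset.card s.val = _
        rw [hs]; simp
      have hx : x ∈ s := by
        show x ∈ s.val
        rw [hs]; simp
      have hy : y ∈ s := by
        show y ∈ s.val
        rw [hs]; simp
      have hnd : ((l : Multiset ℕ) + {x, y}).Nodup := hs ▸ s.nodup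
      have hxy : x ≠ y := by
        rintro rfl
        rw [Multiset.nodup_add] at hnd
        have := hnd.2.1
        simp at this
      have hss : ss F (E (l.map (vp F v)) k (vp F v x) (vp F v y)) = fun i =>
          X ^ (s.card - 1 - k) * (if i = y then 1 else 0) +
            (-1 : F) • (X ^ (s.card - 1 - k) * (if i = x then 1 else 0)) := by
        funext i
        rw [ss_E F v l hl k x y hk i, hcard, show l.length + 2 - 1 = l.length + 1 by omega]
        simp only [neg_smul, one_smul]
        ring
      rw [hss, rho_add, rho_smul, rho_single F v s x0 k (by omega) y hy,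
        rho_single F v s x0 k (by omega) x hx]
      by_cases h1 : x = x0
      · subst h1
        rw [if_neg (Ne.symm hxy), if_pos rfl, smul_zero, add_zero]
        exact (eb_eq F v S s x l y k hs hk).symm
      · by_cases h2 : y = x0
        · subst h2
          rw [if_pos rfl, if_neg hxy, zero_add, neg_smul, one_smul,
            ← eb_eq F v S s y l x k (by rw [hs]; congr 1; exact Multiset.cons_swap _ _ _) hk,
            E_anti S _ _ _ _ (by simpa using hk), neg_neg]
        · rw [if_neg h2, if_neg h1, neg_smul, one_smul]
          have hx0 : x0 ∈ l := by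
            have : x0 ∈ (l : Multiset ℕ) + {x, y} := by rw [← hs]; exact h0
            rw [Multiset.mem_add] at this
            rcases this with h | h
            · exact h
            · simp only [Multiset.insert_eq_cons, Multiset.mem_cons, Multiset.mem_singleton] at h
              rcases h with h | h
              · exact absurd h.symm h1
              · exact absurd h.symm h2
          obtain ⟨l', hl'⟩ : ∃ l', l.Perm (x0 :: l') := ⟨l.erase x0, List.perm_cons_erase hx0⟩
          have hlen : l.length = l'.length + 1 := by rw [hl'.length_eq]; rfl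
          have hs' : s.val = x0 ::ₘ x ::ₘ y ::ₘ (l' : Multiset ℕ) := by
            rw [hs, Multiset.coe_eq_coe.2 hl', add_comm]
            show x ::ₘ y ::ₘ (x0 ::ₘ (l' : Multiset ℕ)) = _
            rw [Multiset.cons_swap y x0, Multiset.cons_swap x x0]
          have e1 := E_perm S (vp F v x) (vp F v y) (hl'.map (vp F v)) k (by simpa using hk)
          have e2 := E_cyc S (vp F v x) (vp F v y) (vp F v x0) (l'.map (vp F v)) k
            (by rw [List.length_map]; omega)
          have e3 := eb_eq F v S s x0 (x :: l') y k (by
            rw [hs', add_comm]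
            show _ = x0 ::ₘ y ::ₘ x ::ₘ (l' : Multiset ℕ)
            rw [Multiset.cons_swap x y]) (by simp; omega)
          have e4 := eb_eq F v S s x0 (y :: l') x k (by
            rw [hs', add_comm]; rfl) (by simp; omega)
          rw [e1, ← e3, ← e4]
          rw [List.map_cons, List.map_cons, List.map_cons]
          have e5 := E_anti S (vp F v x0) (vp F v y) ((x :: l').map (vp F v)) k
            (by simp; omega)
          rw [List.map_cons] at e5
          rw [e5] at e2
          linear_combination (norm := abel) (-1 : ℤ) • e2
  | zero => exact rho_zero F v s x0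
  | add u w _ _ h1 h2 =>
    have : ss F (u + w) = fun i => ss F u i + ss F w i := rfl
    rw [this, rho_add]
    exact congrArg₂ (· + ·) h1 h2
  | smul c u _ h =>
    have : ss F (c • u) = fun i => c • ss F u i := rfl
    rw [this, rho_smul]
    exact congrArg (c • ·) h

omit S in
theorem f1_N (s : Multiset ℕ) (u : A × MM F) (hu : u ∈ N F (vp F v) s) : f1 F u.2 = 0 := by
  induction hu using Submodule.span_induction with
  | mem u hu =>
    rcases hu with ⟨x, y, hs, rfl⟩ | ⟨l, k, x, y, hl, hk, hs, rfl⟩
    · exact (com_model F (xg F x) (xg F y) rfl rfl).1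
    · exact sf_E F v l hl k x y hk
  | zero => rfl
  | add u w _ _ h1 h2 =>
    show f1 F u.2 + f1 F w.2 = 0
    rw [h1, h2, add_zero]
  | smul c u _ h =>
    show c • f1 F u.2 = 0
    rw [h, smul_zero]

/-- an element of the ideal with zero second component is zero -/
theorem N_inj (s : Finset ℕ) (u : A × MM F) (hu : u ∈ N F (vp F v) s.val) (h : u.2 = 0) :
    u = 0 := by
  have hss : ss F u = fun _ => 0 := by
    funext i
    unfold ss
    rw [h]; rfl
  by_cases h3 : 3 ≤ s.card
  · obtain ⟨x0, h0⟩ : s.Nonempty := Finset.card_pos.1 (by omega)
    rw [← rho_N F v S s x0 h0 h3 u hu, hss, rho_zero]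
  · by_cases h2 : s.card = 2
    · obtain ⟨x0, y0, hne, rfl⟩ := Finset.card_eq_two.1 h2
      have hval : ({x0, y0} : Finset ℕ).val = {x0, y0} := by
        rw [Finset.insert_val_of_notMem (by simpa using hne)]; rfl
      have key : ∀ u ∈ N F (vp F v) ({x0, y0} : Finset ℕ).val,
          ((ss F u y0).coeff 0) • com (vp F v x0) (vp F v y0) = u := by
        intro u hu
        induction hu using Submodule.span_induction with
        | mem u hu =>
          rcases hu with ⟨x, y, hs, rfl⟩ | ⟨l, k, x, y, hl, hk, hs, rfl⟩
          · rw [hval] at hs
            have hc : ∀ x y : ℕ, ss F (com (vp F v x) (vp F v y)) y0 =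
                (X + 1) * ((if y0 = y then 1 else 0) - (if y0 = x then 1 else 0)) := fun x y =>
              (com_model F (xg F x) (xg F y) rfl rfl).2 y0
            have hcases : (x = x0 ∧ y = y0) ∨ (x = y0 ∧ y = x0) := by
              have hxm : x ∈ ({x0, y0} : Multiset ℕ) := by rw [hs]; simp
              have hym : y ∈ ({x0, y0} : Multiset ℕ) := by rw [hs]; simp
              have hx0m : x0 ∈ ({x, y} : Multiset ℕ) := by rw [← hs]; simp
              have hy0m : y0 ∈ ({x, y} : Multiset ℕ) := by rw [← hs]; simp
              simp only [Multiset.insert_eq_cons, Multiset.mem_cons, Multiset.mem_singleton]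
                at hxm hym hx0m hy0m
              rcases hxm with h | h
              · left
                refine ⟨h, ?_⟩
                rcases hy0m with h' | h'
                · exact absurd (h.symm.trans h'.symm) hne
                · exact h'.symm
              · right
                refine ⟨h, ?_⟩
                rcases hx0m with h' | h'
                · exact absurd (h'.trans h) hne
                · exact h'.symm
            rcases hcases with ⟨rfl, rfl⟩ | ⟨rfl, rfl⟩
            · rw [hc, if_pos rfl, if_neg (Ne.symm hne)]
              simp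
            · rw [hc, if_pos rfl, if_neg (Ne.symm hne)]
              have : com (vp F v x) (vp F v y) = - com (vp F v y) (vp F v x) := by
                unfold com; abel
              rw [this]
              simp
          · exfalso
            have h1 := congrArg Multiset.card hs
            rw [hval] at h1
            simp at h1
            exact hl h1
        | zero =>
          show ((0 : F[X]).coeff 0) • com (vp F v x0) (vp F v y0) = 0
          simp
        | add u w _ _ h1 h2 =>
          rw [ss_add, coeff_add, add_smul, h1, h2]
        | smul c u _ h =>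
          rw [ss_smul, coeff_smul, smul_eq_mul, mul_smul, h]
      rw [← key u hu, hss]
      simp
    · have hemp : WS (vp F v) s.val = ∅ := by
        ext w
        constructor
        · rintro (⟨x, y, hs, _⟩ | ⟨l, k, x, y, hl, _, hs, _⟩)
          · have h1 : s.card = 2 := by
              show Multiset.card s.val = 2
              rw [hs]; rfl
            exact absurd h1 h2
          · have h1 : s.card = l.length + 2 := by
              show Multiset.card s.val = _
              rw [hs]; simp
            have := List.length_pos_of_ne_nil hl
            omega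
        · intro h; exact absurd h (by simp)
      unfold N at hu
      rw [hemp, Submodule.span_empty, Submodule.mem_bot] at hu
      exact hu

end

end

end Pool.Agent.R639.PM
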