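import Pool.Agent.R639.PM.Words

/-!
# Mutations, the model, and independence
-/

set_option autoImplicit false

namespace Pool.Agent.R639.PM

open Polynomial

noncomputable section

/-! ### Mutations -/

/-- The `(p, q)`-mutation of the associative algebra `P`: the space `P` with the product
`⟨x, y⟩ = (xp)y - (yq)x`. -/
def Mut (P : Type*) (_p _q : P) : Type _ := P

section Mut

variable {P : Type*} [NonUnitalRing P] (p q : P)

instance : AddCommGroup (Mut P p q) := inferInstanceAs (AddCommGroup P)

/-- the product of the mutation -/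
def mutMul (x y : P) : P := x * p * y - y * q * x

theorem mutMul_add (x y z : P) : mutMul p q x (y + z) = mutMul p q x y + mutMul p q x z := by
  simp only [mutMul, mul_add, add_mul]; abel

theorem add_mutMul (x y z : P) : mutMul p q (x + y) z = mutMul p q x z + mutMul p q y z := by
  simp only [mutMul, mul_add, add_mul]; abel

theorem zero_mutMul (x : P) : mutMul p q 0 x = 0 := by simp [mutMul]

theorem mutMul_zero (x : P) : mutMul p q x 0 = 0 := by simp [mutMul]

instance : NonUnitalNonAssocRing (Mut P p q) :=
  { (inferInstance : AddCommGroup (Mut P p q)) with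
    mul := fun x y => mutMul (P := P) p q x y
    left_distrib := fun a b c => mutMul_add (P := P) p q a b c
    right_distrib := fun a b c => add_mutMul (P := P) p q a b c
    zero_mul := fun a => zero_mutMul (P := P) p q a
    mul_zero := fun a => mutMul_zero (P := P) p q a }

variable {F : Type*} [Field F] [Module F P] [IsScalarTower F P P] [SMulCommClass F P P]

theorem smul_mutMul (c : F) (x y : P) : mutMul p q (c • x) y = c • mutMul p q x y := by
  simp only [mutMul, smul_mul_assoc, mul_smul_comm, smul_sub]

theorem mutMul_smul (c : F) (x y : P) : mutMul p q x (c • y) = c • mutMul p q x y := by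
  simp only [mutMul, smul_mul_assoc, mul_smul_comm, smul_sub]

instance : Module F (Mut P p q) := inferInstanceAs (Module F P)

instance : IsScalarTower F (Mut P p q) (Mut P p q) :=
  ⟨fun c x y => smul_mutMul (P := P) p q c x y⟩

instance : SMulCommClass F (Mut P p q) (Mut P p q) :=
  ⟨fun c x y => (mutMul_smul (P := P) p q c x y).symm⟩

end Mut

/-! ### The model -/

section Model

variable (F : Type*) [Field F]

/-- a perm algebra: `(a, x) (b, y) = (a b, a y)` -/
def PP : Type _ := F[X] × (ℕ → F[X])

instance : AddCommGroup (PP F) := inferInstanceAs (AddCommGroup (F[X] × (ℕ → F[X])))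
instance : Module F (PP F) := inferInstanceAs (Module F (F[X] × (ℕ → F[X])))

/-- multiplication in `PP` -/
def ppMul (a b : PP F) : PP F := (a.1 * b.1, fun i => a.1 * b.2 i)

instance : NonUnitalRing (PP F) :=
  { (inferInstance : AddCommGroup (PP F)) with
    mul := fun a b => ppMul F a b
    left_distrib := fun a b c => by
      refine Prod.ext (mul_add a.1 b.1 c.1) (funext fun i => mul_add a.1 (b.2 i) (c.2 i))
    right_distrib := fun a b c => by
      refine Prod.ext (add_mul a.1 b.1 c.1) (funext fun i => add_mul a.1 b.1 (c.2 i))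
    zero_mul := fun a => by
      refine Prod.ext (zero_mul a.1) (funext fun i => zero_mul (a.2 i))
    mul_zero := fun a => by
      refine Prod.ext (mul_zero a.1) (funext fun i => mul_zero a.1)
    mul_assoc := fun a b c => by
      refine Prod.ext (mul_assoc a.1 b.1 c.1) (funext fun i => mul_assoc a.1 b.1 (c.2 i)) }

instance : IsScalarTower F (PP F) (PP F) := ⟨fun c x y => by
  refine Prod.ext (smul_mul_assoc c x.1 y.1) (funext fun i => smul_mul_assoc c x.1 (y.2 i))⟩

instance : SMulCommClass F (PP F) (PP F) := ⟨fun c x y => by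
  refine Prod.ext (mul_smul_comm c x.1 y.1).symm
    (funext fun i => (mul_smul_comm c x.1 (y.2 i)).symm)⟩

theorem pp_perm (a b c : PP F) : a * b * c = b * a * c := by
  refine Prod.ext ?_ (funext fun i => ?_)
  · show a.1 * b.1 * c.1 = b.1 * a.1 * c.1
    ring
  · show a.1 * b.1 * c.2 i = b.1 * a.1 * c.2 i
    ring

/-- the element `p` -/
def pe : PP F := (X, 0)
/-- the element `q` -/
def qe : PP F := (1, 0)

/-- the model -/
abbrev MM : Type _ := Mut (PP F) (pe F) (qe F)

/-- first component -/
def f1 (x : MM F) : F[X] := Prod.fst (α := F[X]) (β := ℕ → F[X]) x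
/-- second component -/
def f2 (x : MM F) (i : ℕ) : F[X] := Prod.snd (α := F[X]) (β := ℕ → F[X]) x i

theorem MM_ext (x y : MM F) (h1 : f1 F x = f1 F y) (h2 : ∀ i, f2 F x i = f2 F y i) : x = y :=
  Prod.ext h1 (funext h2)

theorem f1_add (x y : MM F) : f1 F (x + y) = f1 F x + f1 F y := rfl
theorem f2_add (x y : MM F) (i : ℕ) : f2 F (x + y) i = f2 F x i + f2 F y i := rfl
theorem f1_sub (x y : MM F) : f1 F (x - y) = f1 F x - f1 F y := rfl
theorem f2_sub (x y : MM F) (i : ℕ) : f2 F (x - y) i = f2 F x i - f2 F y i := rfl
theorem f1_neg (x : MM F) : f1 F (-x) = -f1 F x := rfl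
theorem f2_neg (x : MM F) (i : ℕ) : f2 F (-x) i = -f2 F x i := rfl
theorem f1_zero : f1 F (0 : MM F) = 0 := rfl
theorem f2_zero (i : ℕ) : f2 F (0 : MM F) i = 0 := rfl
theorem f1_smul (c : F) (x : MM F) : f1 F (c • x) = c • f1 F x := rfl
theorem f2_smul (c : F) (x : MM F) (i : ℕ) : f2 F (c • x) i = c • f2 F x i := rfl

theorem f1_mul (x y : MM F) : f1 F (x * y) = (X - 1) * f1 F x * f1 F y := by
  show f1 F x * X * f1 F y - f1 F y * 1 * f1 F x = _
  ring

theorem f2_mul (x y : MM F) (i : ℕ) :
    f2 F (x * y) i = X * f1 F x * f2 F y i - f1 F y * f2 F x i := by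
  show f1 F x * X * f2 F y i - f1 F y * 1 * f2 F x i = _
  ring

theorem sat_MM : Sat (MM F) where
  f := fun x y z => by
    apply MM_ext <;> intros <;>
    simp only [pf, f1_add, f1_sub, f1_mul, f2_add, f2_sub, f2_mul, f1_zero, f2_zero] <;> ring
  wa := fun x y z => by
    apply MM_ext <;> intros <;>
    simp only [pWA, as, f1_add, f1_sub, f1_mul, f2_add, f2_sub, f2_mul, f1_zero, f2_zero] <;> ring
  h := fun x y z w => by
    apply MM_ext <;> intros <;>
    simp only [pH, hs, f1_add, f1_sub, f1_mul, f2_add, f2_sub, f2_mul, f1_zero, f2_zero] <;> ring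
  i := fun x y z w => by
    apply MM_ext <;> intros <;>
    simp only [pI, dot, as, f1_add, f1_sub, f1_mul, f2_add, f2_sub, f2_mul, f1_zero, f2_zero] <;>
    ring
  g1 := fun x y z w => by
    apply MM_ext <;> intros <;>
    simp only [pg1, f1_add, f1_sub, f1_mul, f2_add, f2_sub, f2_mul, f1_zero, f2_zero] <;> ring
  g2 := fun x y z w => by
    apply MM_ext <;> intros <;>
    simp only [pg2, f1_add, f1_sub, f1_mul, f2_add, f2_sub, f2_mul, f1_zero, f2_zero] <;> ring

/-- the generators of the model -/
def xg (i : ℕ) : MM F := ((1, fun j => if j = i then 1 else 0) : F[X] × (ℕ → F[X]))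

theorem f1_xg (i : ℕ) : f1 F (xg F i) = 1 := rfl
theorem f2_xg (i j : ℕ) : f2 F (xg F i) j = if j = i then 1 else 0 := rfl

theorem f1_word (t : FreeMagma ℕ) : f1 F (word (xg F) t) ≠ 0 := by
  induction t with
  | ih1 i => exact one_ne_zero
  | ih2 a b ha hb =>
    show f1 F (word (xg F) a * word (xg F) b) ≠ 0
    rw [f1_mul]
    refine mul_ne_zero (mul_ne_zero ?_ ha) hb
    exact X_sub_C_ne_zero (1 : F)

theorem com_model (x y : MM F) (hx : f1 F x = 1) (hy : f1 F y = 1) :
    f1 F (com x y) = 0 ∧ ∀ i, f2 F (com x y) i = (X + 1) * (f2 F y i - f2 F x i) := by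
  constructor
  · simp only [com, f1_sub, f1_mul, hx, hy]; ring
  · intro i
    simp only [com, f2_sub, f2_mul, hx, hy]; ring

theorem E_model (x y : MM F) (hx : f1 F x = 1) (hy : f1 F y = 1) :
    ∀ l : List (MM F), l ≠ [] → (∀ z ∈ l, f1 F z = 1) → ∀ k ≤ l.length + 1,
    f1 F (E l k x y) = 0 ∧
      ∀ i, f2 F (E l k x y) i = X ^ (l.length + 1 - k) * (f2 F y i - f2 F x i) := by
  intro l
  induction l with
  | nil => intro h; exact absurd rfl h
  | cons w l ih =>
    intro _ hz k hk
    have hw : f1 F w = 1 := hz w (by simp)
    by_cases hl : l = []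
    · subst hl
      have hk' : k = 0 ∨ k = 1 ∨ k = 2 := by simp at hk; omega
      rcases hk' with rfl | rfl | rfl
      · have e : E [w] 0 x y = w * com x y - as y w x := rfl
        rw [e]
        constructor
        · simp only [com, as, f1_sub, f1_mul, hx, hy, hw]; ring
        · intro i
          simp only [com, as, f1_sub, f1_mul, f2_sub, f2_mul, hx, hy, hw, List.length_cons,
            List.length_nil]
          ring
      · have e : E [w] 1 x y = as y w x := rfl
        rw [e]
        constructor
        · simp only [as, f1_sub, f1_mul, hx, hy, hw]; ring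
        · intro i
          simp only [as, f1_mul, f2_sub, f2_mul, hx, hy, hw, List.length_cons,
            List.length_nil]
          ring
      · have e : E [w] 2 x y = -(com x y * w) - as y w x := rfl
        rw [e]
        constructor
        · simp only [com, as, f1_sub, f1_neg, f1_mul, hx, hy, hw]; ring
        · intro i
          simp only [com, as, f1_sub, f1_mul, f2_sub, f2_neg, f2_mul, hx, hy, hw,
            List.length_cons, List.length_nil]
          ring
    · have ih' := ih hl (fun z h => hz z (by simp [h]))
      by_cases h1 : k ≤ l.length + 1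
      · rw [E_cons w l hl k h1]
        obtain ⟨i1, i2⟩ := ih' k h1
        constructor
        · rw [f1_mul, i1, mul_zero]
        · intro i
          rw [f2_mul, i1, i2, hw, List.length_cons,
            show l.length + 1 + 1 - k = (l.length + 1 - k) + 1 by omega, pow_succ]
          ring
      · obtain rfl : k = l.length + 2 := by simp at hk; omega
        rw [E_last w l hl]
        obtain ⟨i1, i2⟩ := ih' (l.length + 1) le_rfl
        constructor
        · rw [f1_neg, f1_mul, i1]; ring
        · intro i
          rw [f2_neg, f2_mul, i1, i2, hw, List.length_cons,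
            show l.length + 1 + 1 - (l.length + 2) = 0 by omega, Nat.sub_self]
          ring

end Model

end

end Pool.Agent.R639.PM
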