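import Pool.Agent.R639.PM.Ident3

/-!
# The structure of the ideal generated by commutators and associators
-/

set_option autoImplicit false

namespace Pool.Agent.R639.PM

section E

variable {A : Type*} [NonUnitalNonAssocRing A]

/-- basic elements of degree three -/
def G (k : ℕ) (z x y : A) : A :=
  if k = 0 then z * com x y - as y z x
  else if k = 1 then as y z x else -(com x y * z) - as y z x

/-- basic elements; in the model `E l k x y = p ^ (|l| + 1 - k) q ^ k λ(l) (λ(x) y - λ(y) x)` -/
def E : List A → ℕ → A → A → A
  | [], _, _, _ => 0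
  | [z], k, x, y => G k z x y
  | w :: z :: l, k, x, y =>
    if k ≤ l.length + 2 then w * E (z :: l) k x y else -(E (z :: l) (k - 1) x y * w)

theorem E_single (z : A) (k : ℕ) (x y : A) : E [z] k x y = G k z x y := rfl

theorem E_cons (w : A) (l : List A) (hl : l ≠ []) (k : ℕ) (hk : k ≤ l.length + 1) (x y : A) :
    E (w :: l) k x y = w * E l k x y := by
  obtain ⟨z, l', rfl⟩ := List.exists_cons_of_ne_nil hl
  rw [E, if_pos (by simpa using hk)]

theorem E_last (w : A) (l : List A) (hl : l ≠ []) (x y : A) :
    E (w :: l) (l.length + 2) x y = -(E l (l.length + 1) x y * w) := by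
  obtain ⟨z, l', rfl⟩ := List.exists_cons_of_ne_nil hl
  rw [E, if_neg (by simp)]
  simp

/-- the ideal generated by commutators and associators, up to torsion -/
inductive Kp : A → Prop
  | com (x y : A) : Kp (com x y)
  | as (x y z : A) : Kp (as x y z)
  | add (u v : A) : Kp u → Kp v → Kp (u + v)
  | neg (u : A) : Kp u → Kp (-u)
  | div (n : ℕ) (u : A) : n ≠ 0 → Kp (n • u) → Kp u

theorem Kp.sub {u v : A} (hu : Kp u) (hv : Kp v) : Kp (u - v) := by
  rw [sub_eq_add_neg]; exact Kp.add _ _ hu (Kp.neg _ hv)

variable (S : SatT A)
include S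

theorem Kp.good {u : A} (hu : Kp u) : Good u := by
  induction hu with
  | com x y => exact good_com S x y
  | as x y z => exact good_as S x y z
  | add u v _ _ h1 h2 => exact h1.add h2
  | neg u _ h => exact h.neg
  | div n u hn _ h => exact good_of_smul S n hn h

theorem Kp.left_com (c x y : A) : Kp (c * PM.com x y) := by
  apply Kp.div 3 _ (by norm_num)
  rw [three_left S]
  exact (((Kp.com _ _).add _ _ (Kp.com _ _)).sub (Kp.com _ _)).sub (Kp.com _ _)

theorem Kp.right_com (c x y : A) : Kp (PM.com x y * c) := by
  apply Kp.div 3 _ (by norm_num)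
  rw [three_right S]
  exact (((Kp.com _ _).add _ _ (Kp.com _ _)).sub (Kp.com _ _)).sub (Kp.com _ _)

theorem Kp.left_right_com (a c x y : A) : Kp (a * (PM.com x y * c)) := by
  apply Kp.div 3 _ (by norm_num)
  rw [← mul_smul_comm, three_right S, mul_sub, mul_sub, mul_add]
  exact (((Kp.left_com S _ _ _).add _ _ (Kp.left_com S _ _ _)).sub (Kp.left_com S _ _ _)).sub
    (Kp.left_com S _ _ _)

theorem Kp.mul {u : A} (hu : Kp u) (c : A) : Kp (c * u) ∧ Kp (u * c) := by
  induction hu with
  | com x y => exact ⟨Kp.left_com S c x y, Kp.right_com S c x y⟩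
  | as x b z =>
    have h1 : Kp (c * PM.as x b z) := by
      apply Kp.div 2 _ (by norm_num)
      have h1 := D4a S c b x z
      have h2 := comR S x b z c
      have : (2 : ℕ) • (c * PM.as x b z) = PM.as x (c * b) z - c * (PM.com z x * b) := by
        linear_combination (norm := abel) (-1 : ℤ) • h1 - h2
      rw [this]
      exact (Kp.as _ _ _).sub (Kp.left_right_com S _ _ _ _)
    refine ⟨h1, ?_⟩
    rw [comR S]
    exact h1.add _ _ (Kp.left_right_com S _ _ _ _)
  | add u v _ _ h1 h2 =>
    rw [mul_add, add_mul]
    exact ⟨h1.1.add _ _ h2.1, h1.2.add _ _ h2.2⟩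
  | neg u _ h =>
    rw [mul_neg, neg_mul]
    exact ⟨h.1.neg, h.2.neg⟩
  | div n u hn _ h =>
    rw [mul_smul_comm, smul_mul_assoc] at h
    exact ⟨Kp.div n _ hn h.1, Kp.div n _ hn h.2⟩

theorem KpG (k : ℕ) (z x y : A) : Kp (G k z x y) := by
  unfold G
  split_ifs
  · exact ((Kp.com x y).mul S z).1.sub (Kp.as _ _ _)
  · exact Kp.as _ _ _
  · exact ((Kp.com x y).mul S z).2.neg.sub (Kp.as _ _ _)

theorem KpE (l : List A) (hl : l ≠ []) (x y : A) : ∀ k, Kp (E l k x y) := by
  induction l with
  | nil => exact absurd rfl hl
  | cons w l ih =>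
    intro k
    rcases l with _ | ⟨z, l⟩
    · exact KpG S _ _ _ _
    · rw [E]
      split_ifs
      · exact ((ih (by simp) k).mul S w).1
      · exact ((ih (by simp) (k - 1)).mul S w).2.neg

theorem QE (x y : A) : ∀ l : List A, l ≠ [] → ∀ k ≤ l.length, ∀ w : A,
    -(E l k x y * w) = w * E l (k + 1) x y := by
  intro l
  induction l with
  | nil => intro h; exact absurd rfl h
  | cons z l ih =>
    intro _ k hk w
    have hg := good_com S x y
    by_cases hl : l = []
    · subst hl
      have hk' : k = 0 ∨ k = 1 := by simp at hk; omega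
      rcases hk' with rfl | rfl
      · rw [E_single, E_single]
        simp only [G, if_true, one_ne_zero, if_false]
        rw [sub_mul, comR S, hg.mid, hg.LR z w]
        abel
      · rw [E_single, E_single]
        simp only [G, if_true, one_ne_zero, if_false]
        norm_num
        rw [comR S, mul_sub, mul_neg]
        abel
    · have hgl : ∀ k, Good (E l k x y) := fun k => (KpE S l hl x y k).good S
      have hk' : k ≤ l.length + 1 := by simpa using hk
      rw [E_cons z l hl k hk']
      by_cases hkl : k ≤ l.length
      · rw [E_cons z l hl (k + 1) (by omega), (hgl k).mid, ← mul_neg, ih hl k hkl w,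
          (hgl (k + 1)).LL]
      · obtain rfl : k = l.length + 1 := by omega
        rw [show l.length + 1 + 1 = l.length + 2 by omega, E_last z l hl, (hgl _).mid, mul_neg,
          (hgl _).LR]

theorem QE' (x y : A) (l : List A) (hl : l ≠ []) (k : ℕ) (hk : k ≤ l.length + 1) (w : A) :
    -(E l k x y * w) = E (w :: l) (k + 1) x y := by
  by_cases h : k ≤ l.length
  · rw [QE S x y l hl k h w, E_cons w l hl (k + 1) (by omega)]
  · obtain rfl : k = l.length + 1 := by omega
    rw [show l.length + 1 + 1 = l.length + 2 by omega, E_last w l hl]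

theorem E_swap (a b : A) (l : List A) (x y : A) (k : ℕ) (hk : k ≤ l.length + 3) :
    E (a :: b :: l) k x y = E (b :: a :: l) k x y := by
  have hg := good_com S x y
  by_cases hl : l = []
  · subst hl
    have d1 := sub_eq_zero.1 (D2L S a b y x)
    have d2 := sub_eq_zero.1 (D2R S a b y x)
    have hk' : k = 0 ∨ k = 1 ∨ k = 2 ∨ k = 3 := by simp at hk; omega
    rcases hk' with rfl | rfl | rfl | rfl
    · simp only [E, G, List.length_nil, zero_add, Nat.zero_le, if_true]
      rw [mul_sub, mul_sub, d1, hg.LL]
    · simp only [E, G, List.length_nil, zero_add, Nat.one_le_ofNat, one_ne_zero, if_true, if_false]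
      rw [d1]
    · simp only [E, G, List.length_nil, zero_add, le_refl, if_true]
      norm_num
      rw [mul_sub, mul_sub, d1, mul_neg, mul_neg, hg.LR]
    · simp only [E, G, List.length_nil, zero_add]
      norm_num
      rw [sub_mul, sub_mul, d2, neg_mul, neg_mul, hg.RR]
  · have hgl : ∀ k, Good (E l k x y) := fun k => (KpE S l hl x y k).good S
    by_cases h1 : k ≤ l.length + 1
    · rw [E_cons a (b :: l) (by simp) k (by simp; omega), E_cons b l hl k h1,
        E_cons b (a :: l) (by simp) k (by simp; omega), E_cons a l hl k h1, (hgl k).LL]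
    · by_cases h2 : k = l.length + 2
      · subst h2
        rw [E_cons a (b :: l) (by simp) _ (by simp), E_last b l hl,
          E_cons b (a :: l) (by simp) _ (by simp), E_last a l hl, mul_neg, mul_neg, (hgl _).LR]
      · obtain rfl : k = l.length + 3 := by omega
        have e1 := E_last a (b :: l) (by simp) x y
        have e2 := E_last b (a :: l) (by simp) x y
        simp only [List.length_cons] at e1 e2
        rw [show l.length + 3 = l.length + 1 + 2 by omega, e1, e2,
          show l.length + 1 + 1 = l.length + 2 by omega, E_last b l hl, E_last a l hl, neg_mul,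
          neg_mul, (hgl _).RR]

theorem E_perm (x y : A) {l l' : List A} (h : l.Perm l') :
    ∀ k ≤ l.length + 1, E l k x y = E l' k x y := by
  induction h with
  | nil => intro k _; rfl
  | @cons w l l' h ih =>
    intro k hk
    by_cases hl : l = []
    · subst hl
      rw [List.Perm.nil_eq h]
    · have hl' : l' ≠ [] := by
        rintro rfl; exact hl (List.perm_nil.1 h)
      by_cases h1 : k ≤ l.length + 1
      · rw [E_cons w l hl k h1, E_cons w l' hl' k (by rw [← h.length_eq]; exact h1), ih k h1]
      · obtain rfl : k = l.length + 2 := by simp at hk; omega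
        rw [E_last w l hl, h.length_eq, E_last w l' hl', ← h.length_eq, ih _ le_rfl]
  | swap a b l =>
    intro k hk
    exact E_swap S b a l x y k (by simpa using hk)
  | @trans l1 l2 l3 h1 h2 ih1 ih2 =>
    intro k hk
    rw [ih1 k hk, ih2 k (by rw [← h1.length_eq]; exact hk)]

theorem E_anti (x y : A) (l : List A) : ∀ k ≤ l.length + 1, E l k y x = -E l k x y := by
  induction l with
  | nil => intro k _; simp [E]
  | cons w l ih =>
    intro k hk
    by_cases hl : l = []
    · subst hl
      rw [E_single, E_single]
      have h1 : com y x = - com x y := by unfold com; abel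
      have h2 : as x w y = - as y w x := eq_neg_of_add_eq_zero_left (flex S _ _ _)
      unfold G
      rw [h1, h2]
      split_ifs
      · rw [mul_neg]; abel
      · rfl
      · rw [neg_mul]; abel
    · by_cases h1 : k ≤ l.length + 1
      · rw [E_cons w l hl k h1, E_cons w l hl k h1, ih k h1, mul_neg]
      · obtain rfl : k = l.length + 2 := by simp at hk; omega
        rw [E_last w l hl, E_last w l hl, ih _ le_rfl, neg_mul]

theorem E_cyc (x y z : A) (l : List A) : ∀ k ≤ l.length + 2,
    E (z :: l) k x y + E (x :: l) k y z + E (y :: l) k z x = 0 := by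
  induction l with
  | nil =>
    intro k _
    rw [E_single, E_single, E_single]
    have h1 := cyc S y z x
    have h2 := fR S x y z
    have h3 := fL S x y z
    unfold G
    split_ifs
    · linear_combination (norm := abel) h2 - h1
    · linear_combination (norm := abel) h1
    · linear_combination (norm := abel) (-1 : ℤ) • h3 - h1
  | cons w l ih =>
    intro k hk
    have hk3 : k ≤ l.length + 3 := by simpa using hk
    rw [E_swap S z w l _ _ k hk3, E_swap S x w l _ _ k hk3, E_swap S y w l _ _ k hk3]
    by_cases h1 : k ≤ l.length + 2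
    · rw [E_cons w (z :: l) (by simp) k (by simpa using h1),
        E_cons w (x :: l) (by simp) k (by simpa using h1),
        E_cons w (y :: l) (by simp) k (by simpa using h1), ← mul_add, ← mul_add, ih k h1, mul_zero]
    · obtain rfl : k = l.length + 1 + 2 := by omega
      have e1 := E_last w (z :: l) (by simp) x y
      have e2 := E_last w (x :: l) (by simp) y z
      have e3 := E_last w (y :: l) (by simp) z x
      simp only [List.length_cons] at e1 e2 e3
      rw [e1, e2, e3, ← neg_add, ← neg_add, ← add_mul, ← add_mul,
        show l.length + 1 + 1 = l.length + 2 by omega, ih _ le_rfl, zero_mul, neg_zero]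

end E

end Pool.Agent.R639.PM
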