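import Pool.Agent.R639.PM.Struct

/-!
# Nonassociative words modulo the ideal
-/

set_option autoImplicit false

namespace Pool.Agent.R639.PM

/-- the value of a nonassociative monomial -/
def word {A : Type*} [Mul A] (v : ℕ → A) : FreeMagma ℕ → A
  | .of i => v i
  | .mul a b => word v a * word v b

/-- the multiset of the variables of a nonassociative monomial -/
def letters : FreeMagma ℕ → Multiset ℕ
  | .of i => {i}
  | .mul a b => letters a + letters b

theorem letters_ne_zero (t : FreeMagma ℕ) : letters t ≠ 0 := by
  induction t with
  | ih1 i => exact Multiset.singleton_ne_zero i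
  | ih2 a b ha _ =>
    intro h
    have h' : letters a + letters b = 0 := h
    rw [add_eq_zero] at h'
    exact ha h'.1

section

variable (F : Type*) [Field F] {A : Type*} [NonUnitalNonAssocRing A] [Module F A]
  [IsScalarTower F A A] [SMulCommClass F A A]

/-- the basic elements with variables `s` -/
def WS (v : ℕ → A) (s : Multiset ℕ) : Set A :=
  {u | (∃ x y, s = {x, y} ∧ u = com (v x) (v y)) ∨
    ∃ (l : List ℕ) (k x y : ℕ), l ≠ [] ∧ k ≤ l.length + 1 ∧ s = (l : Multiset ℕ) + {x, y} ∧
      u = E (l.map v) k (v x) (v y)}

/-- the part of the ideal with variables `s` -/
def N (v : ℕ → A) (s : Multiset ℕ) : Submodule F A := Submodule.span F (WS v s)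

variable (v : ℕ → A)

theorem com_mem_N (x y : ℕ) : com (v x) (v y) ∈ N F v {x, y} :=
  Submodule.subset_span (Or.inl ⟨x, y, rfl, rfl⟩)

theorem E_mem_N (l : List ℕ) (hl : l ≠ []) (k x y : ℕ) (hk : k ≤ l.length + 1) :
    E (l.map v) k (v x) (v y) ∈ N F v ((l : Multiset ℕ) + {x, y}) :=
  Submodule.subset_span (Or.inr ⟨l, k, x, y, hl, hk, rfl, rfl⟩)

theorem Good.smul {u : A} (hu : Good u) (c : F) : Good (c • u) := by
  constructor <;> intro a b <;> simp only [mul_smul_comm, smul_mul_assoc]
  · rw [hu.LL]
  · rw [hu.RR]
  · rw [hu.mid]
  · rw [hu.LR]
  · rw [hu.Lab, smul_add]
  · rw [hu.Rab, smul_add]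

variable (S : SatT A)
include S

theorem N_good (s : Multiset ℕ) (u : A) (hu : u ∈ N F v s) : Good u := by
  induction hu using Submodule.span_induction with
  | mem u hu =>
    rcases hu with ⟨x, y, _, rfl⟩ | ⟨l, k, x, y, hl, _, _, rfl⟩
    · exact good_com S _ _
    · exact (KpE S _ (by simpa using hl) _ _ _).good S
  | zero => exact Good.zero
  | add u w _ _ h1 h2 => exact h1.add h2
  | smul c u _ h => exact h.smul F c

theorem gen_act (w : ℕ) (s : Multiset ℕ) (u : A) (hu : u ∈ N F v s) :
    v w * u ∈ N F v ({w} + s) ∧ u * v w ∈ N F v ({w} + s) := by
  induction hu using Submodule.span_induction with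
  | mem u hu =>
    rcases hu with ⟨x, y, rfl, rfl⟩ | ⟨l, k, x, y, hl, hk, rfl, rfl⟩
    · have h0 := E_mem_N F v [w] (by simp) 0 x y (by simp)
      have h1 := E_mem_N F v [w] (by simp) 1 x y (by simp)
      have h2 := E_mem_N F v [w] (by simp) 2 x y (by simp)
      have hs : (([w] : List ℕ) : Multiset ℕ) + {x, y} = {w} + {x, y} := rfl
      rw [hs] at h0 h1 h2
      have h0' : v w * com (v x) (v y) - as (v y) (v w) (v x) ∈ N F v ({w} + {x, y}) := h0
      have h1' : as (v y) (v w) (v x) ∈ N F v ({w} + {x, y}) := h1
      have h2' : -(com (v x) (v y) * v w) - as (v y) (v w) (v x) ∈ N F v ({w} + {x, y}) := h2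
      constructor
      · have := add_mem h0' h1'
        rwa [sub_add_cancel] at this
      · have := neg_mem (add_mem h2' h1')
        rwa [sub_add_cancel, neg_neg] at this
    · have hl' : l.map v ≠ [] := by simpa using hl
      have hs : {w} + ((l : Multiset ℕ) + {x, y}) = (((w :: l : List ℕ)) : Multiset ℕ) + {x, y} := by
        rw [← add_assoc]; rfl
      rw [hs]
      constructor
      · have := E_mem_N F v (w :: l) (by simp) k x y (by simp; omega)
        rw [List.map_cons, E_cons (v w) (l.map v) hl' k (by simpa using hk)] at this
        exact this
      · have := E_mem_N F v (w :: l) (by simp) (k + 1) x y (by simp; omega)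
        rw [List.map_cons, ← QE' S _ _ (l.map v) hl' k (by simpa using hk)] at this
        have := neg_mem this
        rwa [neg_neg] at this
  | zero => simp
  | add u w' _ _ h1 h2 =>
    rw [mul_add, add_mul]
    exact ⟨add_mem h1.1 h2.1, add_mem h1.2 h2.2⟩
  | smul c u _ h =>
    rw [mul_smul_comm, smul_mul_assoc]
    exact ⟨Submodule.smul_mem _ _ h.1, Submodule.smul_mem _ _ h.2⟩

theorem word_act (t : FreeMagma ℕ) : ∀ (s : Multiset ℕ) (u : A), u ∈ N F v s →
    word v t * u ∈ N F v (letters t + s) ∧ u * word v t ∈ N F v (letters t + s) := by
  induction t with
  | ih1 i => intro s u hu; exact gen_act F v S i s u hu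
  | ih2 a b ha hb =>
    intro s u hu
    have hg := N_good F v S s u hu
    have e1 : (word v a * word v b) * u = word v a * (word v b * u) + (word v a * u) * word v b :=
      hg.Lab _ _
    have e2 : u * (word v a * word v b) = word v a * (u * word v b) + (u * word v a) * word v b :=
      hg.Rab _ _
    have s1 : letters a + (letters b + s) = letters a + letters b + s := (add_assoc _ _ _).symm
    have s2 : letters b + (letters a + s) = letters a + letters b + s := by
      rw [← add_assoc, add_comm (letters b)]
    show (word v a * word v b) * u ∈ N F v (letters a + letters b + s) ∧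
      u * (word v a * word v b) ∈ N F v (letters a + letters b + s)
    rw [e1, e2]
    refine ⟨add_mem ?_ ?_, add_mem ?_ ?_⟩
    · rw [← s1]; exact (ha _ _ (hb _ _ hu).1).1
    · rw [← s2]; exact (hb _ _ (ha _ _ hu).1).2
    · rw [← s1]; exact (ha _ _ (hb _ _ hu).2).1
    · rw [← s2]; exact (hb _ _ (ha _ _ hu).2).2

theorem com_word (t : FreeMagma ℕ) : ∀ t' : FreeMagma ℕ,
    com (word v t) (word v t') ∈ N F v (letters t + letters t') := by
  induction t with
  | ih1 i =>
    intro t'
    induction t' with
    | ih1 j => exact com_mem_N F v i j
    | ih2 a b ha hb =>
      have h := der S (word v a) (word v b) (v i)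
      have e : com (v i) (word v a * word v b) =
          word v a * com (v i) (word v b) + com (v i) (word v a) * word v b := by
        have h1 : ∀ x y : A, com x y = - com y x := fun x y => by unfold com; abel
        rw [h1 (v i) (word v a * word v b), h1 (v i) (word v b), h1 (v i) (word v a), mul_neg,
          neg_mul]
        linear_combination (norm := abel) (-1 : ℤ) • h
      show com (v i) (word v a * word v b) ∈ N F v ({i} + (letters a + letters b))
      rw [e]
      apply add_mem
      · have := (word_act F v S a _ _ hb).1
        rwa [show letters a + (letters (FreeMagma.of i) + letters b) =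
          {i} + (letters a + letters b) by
            show letters a + ({i} + letters b) = _
            rw [← add_assoc, add_comm (letters a), add_assoc]] at this
      · have := (word_act F v S b _ _ ha).2
        rwa [show letters b + (letters (FreeMagma.of i) + letters a) =
          {i} + (letters a + letters b) by
            show letters b + ({i} + letters a) = _
            rw [← add_assoc, add_comm (letters b), add_assoc, add_comm (letters b)]] at this
  | ih2 a b ha hb =>
    intro t'
    have h := der S (word v a) (word v b) (word v t')
    have e : com (word v a * word v b) (word v t') =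
        word v a * com (word v b) (word v t') + com (word v a) (word v t') * word v b := by
      linear_combination (norm := abel) h
    show com (word v a * word v b) (word v t') ∈ N F v (letters a + letters b + letters t')
    rw [e]
    apply add_mem
    · have := (word_act F v S a _ _ (hb t')).1
      rwa [← add_assoc] at this
    · have := (word_act F v S b _ _ (ha t')).2
      rwa [← add_assoc, add_comm (letters b)] at this

theorem as_word_left : ∀ (t1 t2 t3 : FreeMagma ℕ),
    as (word v t1) (word v t2) (word v t3) ∈ N F v (letters t1 + letters t2 + letters t3) := by
  have e1 : ∀ a b c d : A, as (a * b) c d = a * as b c d + as a c d * b := fun a b c d =>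
    sub_eq_zero.1 (D4b S a b c d)
  have e2 : ∀ a b c d : A, as c (a * b) d = a * as c b d + as c b d * a := fun a b c d =>
    sub_eq_zero.1 (D4a S a b c d)
  have base : ∀ i j k : ℕ, as (v i) (v j) (v k) ∈ N F v ({i} + {j} + {k}) := by
    intro i j k
    have := E_mem_N F v [j] (by simp) 1 k i (by simp)
    simp only [List.map_cons, List.map_nil, E_single, G, one_ne_zero, if_true, if_false] at this
    rwa [show (([j] : List ℕ) : Multiset ℕ) + {k, i} = {i} + {j} + {k} by
      show ({j} : Multiset ℕ) + ({k} + {i}) = _
      rw [add_comm ({k} : Multiset ℕ), ← add_assoc, add_comm ({j} : Multiset ℕ)]] at this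
  -- middle
  have mid : ∀ (i k : ℕ) (t : FreeMagma ℕ), as (v i) (word v t) (v k) ∈
      N F v ({i} + letters t + {k}) := by
    intro i k t
    induction t with
    | ih1 j => exact base i j k
    | ih2 a b ha hb =>
      show as (v i) (word v a * word v b) (v k) ∈ N F v ({i} + (letters a + letters b) + {k})
      rw [e2]
      have h := word_act F v S a _ _ hb
      rw [show letters a + ({i} + letters b + {k}) = {i} + (letters a + letters b) + {k} by
        rw [← add_assoc, ← add_assoc, add_comm (letters a),
          add_assoc ({i} : Multiset ℕ) (letters a) (letters b)]] at h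
      exact add_mem h.1 h.2
  -- left
  have left : ∀ (k : ℕ) (t1 t2 : FreeMagma ℕ), as (word v t1) (word v t2) (v k) ∈
      N F v (letters t1 + letters t2 + {k}) := by
    intro k t1 t2
    induction t1 with
    | ih1 i => exact mid i k t2
    | ih2 a b ha hb =>
      show as (word v a * word v b) (word v t2) (v k) ∈
        N F v (letters a + letters b + letters t2 + {k})
      rw [e1]
      have h := (word_act F v S a _ _ hb).1
      have h' := (word_act F v S b _ _ ha).2
      rw [show letters a + (letters b + letters t2 + {k}) =
        letters a + letters b + letters t2 + {k} by simp only [add_assoc]] at h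
      rw [show letters b + (letters a + letters t2 + {k}) =
        letters a + letters b + letters t2 + {k} by
          rw [← add_assoc, ← add_assoc, add_comm (letters b)]] at h'
      exact add_mem h h'
  intro t1 t2 t3
  have fl : ∀ a b c : A, as a b c = - as c b a := fun a b c =>
    eq_neg_of_add_eq_zero_left (flex S a b c)
  induction t3 with
  | ih1 k => exact left k t1 t2
  | ih2 a b ha hb =>
    show as (word v t1) (word v t2) (word v a * word v b) ∈
      N F v (letters t1 + letters t2 + (letters a + letters b))
    rw [fl, e1, fl (word v b), fl (word v a), mul_neg, neg_mul]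
    have h := (word_act F v S a _ _ hb).1
    have h' := (word_act F v S b _ _ ha).2
    rw [show letters a + (letters t1 + letters t2 + letters b) =
      letters t1 + letters t2 + (letters a + letters b) by
        rw [← add_assoc, add_comm (letters a), add_assoc (letters t1 + letters t2)]] at h
    rw [show letters b + (letters t1 + letters t2 + letters a) =
      letters t1 + letters t2 + (letters a + letters b) by
        rw [← add_assoc, add_comm (letters b), add_assoc (letters t1 + letters t2),
          add_comm (letters b)]] at h'
    exact neg_mem (add_mem (neg_mem h) (neg_mem h'))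

/-- any variable can be moved to the left end -/
theorem pull (x : ℕ) (t : FreeMagma ℕ) : x ∈ letters t → letters t ≠ {x} →
    ∃ t1, letters t = {x} + letters t1 ∧ word v t - v x * word v t1 ∈ N F v (letters t) := by
  induction t with
  | ih1 i =>
    intro hx hne
    have : x = i := by simpa [letters] using hx
    exact absurd (by rw [this]; rfl) hne
  | ih2 a b ha hb =>
    -- the case where the variable is in the left factor
    have main : ∀ a b : FreeMagma ℕ, (x ∈ letters a → letters a ≠ {x} →
        ∃ t1, letters a = {x} + letters t1 ∧ word v a - v x * word v t1 ∈ N F v (letters a)) →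
        x ∈ letters a → ∃ t1, letters a + letters b = {x} + letters t1 ∧
          word v a * word v b - v x * word v t1 ∈ N F v (letters a + letters b) := by
      intro a b ha hx
      by_cases hs : letters a = {x}
      · have : a = FreeMagma.of x := by
          cases a with
          | of i =>
            have : ({i} : Multiset ℕ) = {x} := hs
            rw [Multiset.singleton_inj.1 this]
          | mul p q =>
            have h1 : letters p + letters q = {x} := hs
            have h2 := congrArg Multiset.card h1
            rw [Multiset.card_add, Multiset.card_singleton] at h2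
            have h3 := Multiset.card_pos.2 (letters_ne_zero p)
            have h4 := Multiset.card_pos.2 (letters_ne_zero q)
            omega
        subst this
        refine ⟨b, rfl, ?_⟩
        show v x * word v b - v x * word v b ∈ _
        rw [sub_self]
        exact zero_mem _
      · obtain ⟨t1, h1, h2⟩ := ha hx hs
        refine ⟨FreeMagma.mul t1 b, ?_, ?_⟩
        · show letters a + letters b = {x} + (letters t1 + letters b)
          rw [h1, add_assoc]
        · show word v a * word v b - v x * (word v t1 * word v b) ∈ _
          have e : word v a * word v b - v x * (word v t1 * word v b) =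
              (word v a - v x * word v t1) * word v b + as (v x) (word v t1) (word v b) := by
            rw [sub_mul]; unfold as; abel
          rw [e]
          apply add_mem
          · have := (word_act F v S b _ _ h2).2
            rwa [add_comm (letters b)] at this
          · have := as_word_left F v S (FreeMagma.of x) t1 b
            rw [h1]
            exact this
    intro hx _
    have hx' : x ∈ letters a + letters b := hx
    rw [Multiset.mem_add] at hx'
    rcases hx' with hx' | hx'
    · exact main a b ha hx'
    · obtain ⟨t1, h1, h2⟩ := main b a hb hx'
      refine ⟨t1, ?_, ?_⟩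
      · show letters a + letters b = _
        rw [add_comm, h1]
      · show word v a * word v b - v x * word v t1 ∈ N F v (letters a + letters b)
        have e : word v a * word v b - v x * word v t1 =
            com (word v a) (word v b) + (word v b * word v a - v x * word v t1) := by
          unfold com; abel
        rw [e]
        apply add_mem (com_word F v S a b)
        rw [add_comm (letters a)]
        exact h2

theorem congr_words : ∀ (n : ℕ) (t t' : FreeMagma ℕ), Multiset.card (letters t) = n →
    letters t = letters t' → word v t - word v t' ∈ N F v (letters t) := by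
  intro n
  induction n with
  | zero =>
    intro t t' h
    exact absurd (Multiset.card_eq_zero.1 h) (letters_ne_zero t)
  | succ n ih =>
    intro t t' hn h
    obtain ⟨x, hx⟩ := Multiset.exists_mem_of_ne_zero (letters_ne_zero t)
    by_cases hs : letters t = {x}
    · have one : ∀ t : FreeMagma ℕ, letters t = {x} → t = FreeMagma.of x := by
        intro a hs
        cases a with
        | of i =>
          have : ({i} : Multiset ℕ) = {x} := hs
          rw [Multiset.singleton_inj.1 this]
        | mul p q =>
          have h1 : letters p + letters q = {x} := hs
          have h2 := congrArg Multiset.card h1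
          rw [Multiset.card_add, Multiset.card_singleton] at h2
          have h3 := Multiset.card_pos.2 (letters_ne_zero p)
          have h4 := Multiset.card_pos.2 (letters_ne_zero q)
          omega
      rw [one t hs, one t' (h ▸ hs), sub_self]
      exact zero_mem _
    · obtain ⟨t1, h1, h2⟩ := pull F v S x t hx hs
      obtain ⟨t1', h1', h2'⟩ := pull F v S x t' (h ▸ hx) (h ▸ hs)
      have hl : letters t1 = letters t1' := by
        have : ({x} : Multiset ℕ) + letters t1 = {x} + letters t1' := by rw [← h1, ← h1', h]
        exact add_left_cancel this
      have hc : Multiset.card (letters t1) = n := by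
        rw [h1, Multiset.card_add, Multiset.card_singleton] at hn
        omega
      have h3 := (gen_act F v S x _ _ (ih t1 t1' hc hl)).1
      rw [← h1] at h3
      rw [← h] at h2'
      have e : word v t - word v t' = (word v t - v x * word v t1) +
          v x * (word v t1 - word v t1') - (word v t' - v x * word v t1') := by
        rw [mul_sub]; abel
      rw [e]
      exact sub_mem (add_mem h2 h3) h2'

end

end Pool.Agent.R639.PM
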